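import Pool.Agent.Q151.OS.SD2

set_option autoImplicit false
set_option linter.unusedSectionVars false

/-! Job DESC2 of project OS: the descent. -/

open Polynomial NumberField IsDedekindDomain
open Pool.Agent.Q51.EL Pool.Agent.Q239.EL Pool.Agent.Q161.OS

noncomputable section

namespace Pool.Agent.Q151.OS

section

variable {L : Type} [Field L] [NumberField L] {l : ℕ} [hl : Fact l.Prime]

/-- the norm of a unit at `l` -/
lemma norm_zero {α : 𝓞 L} (hα : α ≠ 0)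
    (h1 : ∀ v : HeightOneSpectrum (𝓞 L), Abv v l → v.valuation L (α : L) = 1) :
    padicValRat l (Algebra.norm ℚ (α : L)) = 0 := by
  rw [norm_int_val, ph_formula (l := l) (Ideal.span {α}) (span_ne hα)]
  rw [Finset.sum_eq_zero]
  · rfl
  intro v hv
  have hv' := (ab_finite (L := L) hl.out.ne_zero).mem_toFinset.mp hv
  have h2 := val_int v hα
  rw [h1 v hv', ← WithZero.exp_zero, WithZero.exp_inj] at h2
  have h3 : mu v (Ideal.span {α}) = 0 := by omega
  rw [h3, zero_mul]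

end

/-- an integer with even valuations outside `B` -/
lemma kap_dvd {z : ℤ} (hz : z ≠ 0) {B : ℕ}
    (h : ∀ l : ℕ, l.Prime → ¬ l ∣ B → Even (padicValInt l z)) :
    ∃ κ s : ℤ, z = κ * s ^ 2 ∧ κ ∣ (B : ℤ) := by
  obtain ⟨a, b, hab, hsq⟩ := Nat.sq_mul_squarefree z.natAbs
  have hz' : z.natAbs ≠ 0 := Int.natAbs_ne_zero.mpr hz
  have ha0 : a ≠ 0 := hsq.ne_zero
  have hb0 : b ≠ 0 := by
    rintro rfl
    apply hz'
    rw [← hab]
    ring
  have haB : a ∣ B := by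
    rw [← Nat.prod_primeFactors_of_squarefree hsq]
    apply Finset.prod_primes_dvd
    · intro p hp
      exact (Nat.prime_of_mem_primeFactors hp).prime
    · intro p hp
      by_contra hpB
      have hpp := Nat.prime_of_mem_primeFactors hp
      have : Fact p.Prime := ⟨hpp⟩
      have h1 := h p hpp hpB
      have h2 : padicValInt p z = 2 * padicValNat p b + 1 := by
        unfold padicValInt
        rw [← hab, padicValNat.mul (pow_ne_zero 2 hb0) ha0, padicValNat.pow]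
        have h3 : padicValNat p a = 1 := by
          have h4 : 1 ≤ padicValNat p a :=
            one_le_padicValNat_of_dvd ha0 (Nat.dvd_of_mem_primeFactors hp)
          have h5 : ¬ 2 ≤ padicValNat p a := by
            intro h6
            have h7 : p ^ 2 ∣ a := (padicValNat_dvd_iff_le ha0).mpr h6
            rw [pow_two] at h7
            exact hpp.one_lt.ne' (Nat.isUnit_iff.mp (hsq p h7))
          omega
        rw [h3]
      rw [h2] at h1
      obtain ⟨k, hk⟩ := h1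
      omega
  have haB' : (a : ℤ) ∣ (B : ℤ) := by exact_mod_cast haB
  rcases Int.natAbs_eq z with h1 | h1
  · refine ⟨a, b, ?_, haB'⟩
    rw [h1, ← hab]
    push_cast
    ring
  · refine ⟨-a, b, ?_, by rwa [neg_dvd]⟩
    rw [h1, ← hab]
    push_cast
    ring

theorem desc2 (hun : S_UN) (hcl : S_CL) (hsc : S_SC2) (hsd : S_SD2) (hch : S_CH2) (hram : S_RAM) :
    S_DESC2 := by
  classical
  intro f L _ _ θ hs hodd hn3 t ht
  obtain ⟨Cu, hCu, hun'⟩ := hun L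
  obtain ⟨Bc, Cc, hBc, hCc, hcl'⟩ := hcl L
  obtain ⟨Bs, hBs, hsc'⟩ := hsc f L θ hs hodd
  obtain ⟨Bd, hBd, hsd'⟩ := hsd f L θ hs hodd hn3
  obtain ⟨⟨Br, hBr, hBr'⟩, -⟩ := hram L
  obtain ⟨B, hB⟩ : ∃ B : ℕ, B = Bc * Bs * Bd * Br := ⟨_, rfl⟩
  have hB0 : B ≠ 0 := by
    rw [hB]
    exact mul_ne_zero (mul_ne_zero (mul_ne_zero hBc hBs) hBd) hBr
  have hn : Module.finrank ℚ L = f.natDegree := hs.deg
  have hn0 : 0 < f.natDegree := by omega
  have hWf : {v : HeightOneSpectrum (𝓞 L) | (B : 𝓞 L) ∈ v.asIdeal}.Finite :=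
    mem_finite (by exact_mod_cast hB0)
  set W := hWf.toFinset with hW
  set W0 : ℕ := ∏ v ∈ W, Ideal.absNorm v.asIdeal with hW0
  have hW0pos : 0 < W0 := Finset.prod_pos fun v _ => one_le_norm' v
  refine ⟨B, Cu * (Cc * W0) ^ ((1 : ℝ) / f.natDegree), hB0, by positivity, ?_⟩
  intro D d hD hd hcov
  have hD0 : D ≠ 0 := hD.ne_zero
  set δ := aeval θ d with hδ
  have hB1 : ∀ l : ℕ, ¬ l ∣ B → ¬ l ∣ Bc ∧ ¬ l ∣ Bs ∧ ¬ l ∣ Bd ∧ ¬ l ∣ Br := fun l h => by
    rw [hB] at h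
    exact ⟨fun h1 => h (Dvd.dvd.mul_right (Dvd.dvd.mul_right (Dvd.dvd.mul_right h1 _) _) _),
      fun h1 => h (Dvd.dvd.mul_right (Dvd.dvd.mul_right (Dvd.dvd.mul_left h1 _) _) _),
      fun h1 => h (Dvd.dvd.mul_right (Dvd.dvd.mul_left h1 _) _),
      fun h1 => h (Dvd.dvd.mul_left h1 _)⟩
  have hBmem : ∀ (l : ℕ) (v : HeightOneSpectrum (𝓞 L)) (m : ℕ), l.Prime → Abv v l → ¬ l ∣ m →
      (m : 𝓞 L) ∉ v.asIdeal := by
    intro l v m hl hv hm h
    apply hm
    have h1 := (int_mem_iff hl hv (m : ℤ)).mp (by exact_mod_cast h)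
    exact_mod_cast h1
  -- the parities
  have hSC : ∀ l : ℕ, l.Prime → ¬ l ∣ B → ∃ e : ℕ, e < 2 ∧
      ((∀ v : HeightOneSpectrum (𝓞 L), Abv v l → Par v δ e) ∨
      ((l : ℤ) ∣ D ∧ ∃ v0 : HeightOneSpectrum (𝓞 L), Abv v0 l ∧ Ideal.absNorm v0.asIdeal = l ∧
        Par v0 δ (e + 1) ∧ ∀ v : HeightOneSpectrum (𝓞 L), Abv v l → v ≠ v0 → Par v δ e)) := by
    intro l hl hlB
    have : Fact l.Prime := ⟨hl⟩
    obtain ⟨e, he⟩ := hsc' l (hB1 l hlB).2.1 d D hd hD (hcov l)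
    have h1 : ∀ (v : HeightOneSpectrum (𝓞 L)) (x : L), Par v x e →
        Par v x ((e % 2).toNat : ℕ) := fun v x h =>
      par_congr h ⟨e / 2, by omega⟩
    have h2 : ∀ (v : HeightOneSpectrum (𝓞 L)) (x : L), Par v x (e + 1) →
        Par v x (((e % 2).toNat : ℕ) + 1) := fun v x h =>
      par_congr h ⟨e / 2, by omega⟩
    refine ⟨(e % 2).toNat, by omega, ?_⟩
    rcases he with h4 | ⟨h3, v0, h4, h5, h6, h7⟩
    · exact Or.inl (fun v hv => h1 v δ (h4 v hv))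
    · exact Or.inr ⟨h3, v0, h4, h5, h2 v0 δ h6, fun v hv hne => h1 v δ (h7 v hv hne)⟩
  let ee : ℕ → ℕ := fun l => if h : l.Prime ∧ ¬ l ∣ B then (hSC l h.1 h.2).choose else 0
  have hee : ∀ l (hl : l.Prime) (hlB : ¬ l ∣ B), ee l < 2 ∧
      ((∀ v : HeightOneSpectrum (𝓞 L), Abv v l → Par v δ (ee l)) ∨
      ((l : ℤ) ∣ D ∧ ∃ v0 : HeightOneSpectrum (𝓞 L), Abv v0 l ∧ Ideal.absNorm v0.asIdeal = l ∧
        Par v0 δ (ee l + 1) ∧ ∀ v : HeightOneSpectrum (𝓞 L), Abv v l → v ≠ v0 →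
          Par v δ (ee l))) := by
    intro l hl hlB
    have h1 : ee l = (hSC l hl hlB).choose := dif_pos ⟨hl, hlB⟩
    rw [h1]
    exact (hSC l hl hlB).choose_spec
  have hfin : {l : ℕ | l.Prime ∧ ¬ l ∣ B ∧ ee l = 1}.Finite := by
    refine ((D.natAbs.divisors.finite_toSet).union ((supp_finite hd).image bl)).subset ?_
    rintro l ⟨hl, hlB, he⟩
    have : Fact l.Prime := ⟨hl⟩
    rcases (hee l hl hlB).2 with h4 | ⟨h3, -⟩
    · right
      obtain ⟨v, hv⟩ := exists_above (L := L) (hBr' l hl (hB1 l hlB).2.2.2)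
      refine ⟨v, ?_, prime_unique (bl_prime v) hl (bl_abv v) hv⟩
      intro h5
      have h6 := h4 v hv
      rw [he] at h6
      obtain ⟨k, hk⟩ := h6
      rw [h5, ← WithZero.exp_zero, WithZero.exp_inj] at hk
      push_cast at hk
      omega
    · left
      rw [Finset.mem_coe, Nat.mem_divisors]
      exact ⟨Int.natCast_dvd.mp h3, Int.natAbs_ne_zero.mpr hD0⟩
  set S1 := hfin.toFinset with hS1
  have hS1m : ∀ l, l ∈ S1 ↔ l.Prime ∧ ¬ l ∣ B ∧ ee l = 1 := fun l => hfin.mem_toFinset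
  set c : ℕ := ∏ q ∈ S1, q with hc
  have hc0 : c ≠ 0 := Finset.prod_ne_zero_iff.mpr fun q hq => ((hS1m q).mp hq).1.ne_zero
  have hcL : (c : L) ≠ 0 := by exact_mod_cast hc0
  have hvl : ∀ (l : ℕ) (v : HeightOneSpectrum (𝓞 L)), l.Prime → ¬ l ∣ B → Abv v l →
      v.valuation L (l : L) = WithZero.exp (-1 : ℤ) := by
    intro l v hl hlB hv
    have : Fact l.Prime := ⟨hl⟩
    have hl0 : (l : 𝓞 L) ≠ 0 := by exact_mod_cast hl.ne_zero
    have h1 := val_int v hl0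
    rw [nat_coe, mu_l (hBr' l hl (hB1 l hlB).2.2.2) hv] at h1
    exact_mod_cast h1
  have hvc : ∀ (l : ℕ) (v : HeightOneSpectrum (𝓞 L)), l.Prime → ¬ l ∣ B → Abv v l →
      v.valuation L (c : L) = WithZero.exp (-(ee l : ℤ)) := by
    intro l v hl hlB hv
    rw [hc, val_prod_primes hl hv (hvl l v hl hlB hv) S1 fun q hq => ((hS1m q).mp hq).1]
    congr 2
    have := (hee l hl hlB).1
    by_cases h : ee l = 1
    · rw [if_pos ((hS1m l).mpr ⟨hl, hlB, h⟩), h]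
      rfl
    · rw [if_neg (fun h2 => h ((hS1m l).mp h2).2.2)]
      have : ee l = 0 := by omega
      rw [this]
      rfl
  have hkey : ∀ l : ℕ, l.Prime → ¬ l ∣ B →
      ((∀ v : HeightOneSpectrum (𝓞 L), Abv v l → Par v ((c : L) * δ) 0) ∨
      ((l : ℤ) ∣ D ∧ ∃ v0 : HeightOneSpectrum (𝓞 L), Abv v0 l ∧ Ideal.absNorm v0.asIdeal = l ∧
        Par v0 ((c : L) * δ) 1 ∧ ∀ v : HeightOneSpectrum (𝓞 L), Abv v l → v ≠ v0 →
          Par v ((c : L) * δ) 0)) := by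
    intro l hl hlB
    have h1 : ∀ v, Abv v l → Par v δ (ee l) → Par v ((c : L) * δ) 0 := by
      intro v hv h
      have := par_mul (hvc l v hl hlB hv) h
      rwa [add_neg_cancel] at this
    rcases (hee l hl hlB).2 with h4 | ⟨h3, v0, h4, h5, h6, h7⟩
    · exact Or.inl (fun v hv => h1 v hv (h4 v hv))
    · refine Or.inr ⟨h3, v0, h4, h5, ?_, fun v hv hne => h1 v hv (h7 v hv hne)⟩
      have := par_mul (hvc l v0 hl hlB h4) h6
      rwa [show (ee l : ℤ) + 1 + -(ee l : ℤ) = 1 by ring] at this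
  have hcδ : (c : L) * δ ≠ 0 := mul_ne_zero hcL hd
  -- the primes of the first kind
  obtain ⟨I, hI⟩ : ∃ I : Finset ℕ, I = D.natAbs.primeFactors.filter (fun l => ¬ l ∣ B ∧
      ∀ v : HeightOneSpectrum (𝓞 L), Abv v l → Par v ((c : L) * δ) 0) := ⟨_, rfl⟩
  have hIm : ∀ l : ℕ, l ∈ I ↔ l.Prime ∧ (l : ℤ) ∣ D ∧ ¬ l ∣ B ∧
      ∀ v : HeightOneSpectrum (𝓞 L), Abv v l → Par v ((c : L) * δ) 0 := by
    intro l
    rw [hI, Finset.mem_filter, Nat.mem_primeFactors, Int.natCast_dvd]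
    constructor
    · rintro ⟨⟨h1, h2, h3⟩, h4, h5⟩
      exact ⟨h1, h2, h4, h5⟩
    · rintro ⟨h1, h2, h4, h5⟩
      exact ⟨⟨h1, h2, Int.natAbs_ne_zero.mpr hD0⟩, h4, h5⟩
  obtain ⟨mn, hmn⟩ : ∃ mn : ℕ, mn = ∏ q ∈ I, q := ⟨_, rfl⟩
  have hmn0 : 0 < mn := by
    rw [hmn]
    exact Finset.prod_pos fun q hq => ((hIm q).mp hq).1.pos
  have hmdvd : ∀ l : ℕ, l.Prime → ((l : ℤ) ∣ (mn : ℤ) ↔ l ∈ I) := by
    intro l hl
    rw [Int.natCast_dvd_natCast, hmn, hl.prime.dvd_finsetProd_iff]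
    constructor
    · rintro ⟨q, hq, hlq⟩
      rwa [(Nat.prime_dvd_prime_iff_eq hl ((hIm q).mp hq).1).mp hlq]
    · intro h
      exact ⟨l, h, dvd_rfl⟩
  -- the set `S`
  have hSfin : {v : HeightOneSpectrum (𝓞 L) | (Bc : 𝓞 L) ∉ v.asIdeal ∧
      Par v ((c : L) * δ) 1}.Finite := by
    refine (supp_finite hcδ).subset ?_
    rintro v ⟨-, hv⟩ h5
    obtain ⟨k, hk⟩ := hv
    rw [h5, ← WithZero.exp_zero, WithZero.exp_inj] at hk
    omega
  set S := hSfin.toFinset with hS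
  have hSm : ∀ v, v ∈ S ↔ (Bc : 𝓞 L) ∉ v.asIdeal ∧ Par v ((c : L) * δ) 1 := fun v =>
    hSfin.mem_toFinset
  obtain ⟨η, α0, hη, hα0, hval0, hnorm0⟩ := hcl' ((c : L) * δ) S hcδ (fun v hv =>
    ⟨fun h => ((hSm v).mp h).2, fun h => by
      rcases par_or v hcδ with h1 | h1
      · exact h1
      · exact absurd ((hSm v).mpr ⟨hv, h1⟩) h⟩)
  have hα0L : (α0 : L) ≠ 0 := by
    rw [hα0]
    exact mul_ne_zero hcδ (pow_ne_zero 2 hη)
  have hα00 : α0 ≠ 0 := by
    rintro rfl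
    exact hα0L (by simp)
  -- the norms
  have hprodS : (∏ v ∈ S, Ideal.absNorm v.asIdeal) * mn ≤ W0 * D.natAbs ∧ mn ∣ D.natAbs := by
    have h1 : S ⊆ (S.filter fun v => (B : 𝓞 L) ∉ v.asIdeal) ∪ W := by
      intro v hv
      rw [Finset.mem_union, Finset.mem_filter]
      by_cases h : (B : 𝓞 L) ∈ v.asIdeal
      · exact Or.inr (hWf.mem_toFinset.mpr h)
      · exact Or.inl ⟨hv, h⟩
    set S' := S.filter fun v => (B : 𝓞 L) ∉ v.asIdeal with hS'
    have hS'm : ∀ v ∈ S', ¬ bl v ∣ B ∧ ((bl v : ℕ) : ℤ) ∣ D ∧ Ideal.absNorm v.asIdeal = bl v ∧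
        ∀ v' ∈ S', bl v' = bl v → v' = v := by
      intro v hv
      obtain ⟨hv1, hv2⟩ := Finset.mem_filter.mp hv
      have hv3 := ((hSm v).mp hv1).2
      have h2 : ¬ bl v ∣ B := by
        rintro ⟨m, hm⟩
        apply hv2
        rw [hm, Nat.cast_mul]
        exact Ideal.mul_mem_right _ _ (bl_abv v)
      rcases hkey (bl v) (bl_prime v) h2 with h4 | ⟨h3, v0, h4, h5, h6, h7⟩
      · exact absurd hv3 (fun h => par_excl (h4 v (bl_abv v)) h)
      · have h8 : v = v0 := by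
          by_contra hne
          exact par_excl (h7 v (bl_abv v) hne) hv3
        refine ⟨h2, h3, by rw [h8]; rw [h8] at h5; exact h5, ?_⟩
        intro v' hv' hbl
        have hv3' := ((hSm v').mp (Finset.mem_filter.mp hv').1).2
        have h9 : v' = v0 := by
          by_contra hne
          exact par_excl (h7 v' (by rw [← hbl]; exact bl_abv v') hne) hv3'
        rw [h9, h8]
    have hdisj : Disjoint (S'.image bl) I := by
      rw [Finset.disjoint_left]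
      intro q hq hqI
      obtain ⟨v, hv, rfl⟩ := Finset.mem_image.mp hq
      have hv3 := ((hSm v).mp (Finset.mem_filter.mp hv).1).2
      exact par_excl (((hIm _).mp hqI).2.2.2 v (bl_abv v)) hv3
    have h2 : (∏ v ∈ S', Ideal.absNorm v.asIdeal) * mn ∣ D.natAbs := by
      have h3 : ∏ v ∈ S', Ideal.absNorm v.asIdeal = ∏ q ∈ S'.image bl, q := by
        rw [Finset.prod_image (fun v hv v' hv' h => (hS'm v' hv').2.2.2 v hv h)]
        exact Finset.prod_congr rfl fun v hv => (hS'm v hv).2.2.1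
      rw [h3, hmn, ← Finset.prod_union hdisj]
      apply Finset.prod_primes_dvd
      · intro q hq
        rcases Finset.mem_union.mp hq with hq | hq
        · obtain ⟨v, hv, rfl⟩ := Finset.mem_image.mp hq
          exact (bl_prime v).prime
        · exact ((hIm q).mp hq).1.prime
      · intro q hq
        rcases Finset.mem_union.mp hq with hq | hq
        · obtain ⟨v, hv, rfl⟩ := Finset.mem_image.mp hq
          exact Int.natCast_dvd.mp (hS'm v hv).2.1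
        · exact Int.natCast_dvd.mp ((hIm q).mp hq).2.1
    refine ⟨?_, (Dvd.intro_left _ rfl).trans h2⟩
    calc (∏ v ∈ S, Ideal.absNorm v.asIdeal) * mn ≤ (∏ v ∈ S' ∪ W, Ideal.absNorm v.asIdeal) * mn :=
          Nat.mul_le_mul_right _
            (Finset.prod_le_prod_of_subset_of_one_le' h1 fun v _ _ => one_le_norm' v)
      _ ≤ ((∏ v ∈ S' ∪ W, Ideal.absNorm v.asIdeal) * ∏ v ∈ S' ∩ W, Ideal.absNorm v.asIdeal) * mn :=
          Nat.mul_le_mul_right _ (Nat.le_mul_of_pos_right _ (Finset.prod_pos fun v _ => one_le_norm' v))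
      _ = ((∏ v ∈ S', Ideal.absNorm v.asIdeal) * W0) * mn := by rw [Finset.prod_union_inter]
      _ = ((∏ v ∈ S', Ideal.absNorm v.asIdeal) * mn) * W0 := by ring
      _ ≤ D.natAbs * W0 := Nat.mul_le_mul_right _
          (Nat.le_of_dvd (Nat.pos_of_ne_zero (Int.natAbs_ne_zero.mpr hD0)) h2)
      _ = W0 * D.natAbs := mul_comm _ _
  obtain ⟨hprodS1, hmnD⟩ := hprodS
  have hmnD' : (mn : ℤ) ∣ D := Int.natCast_dvd.mpr hmnD
  have hmsq : Squarefree (mn : ℤ) := Squarefree.squarefree_of_dvd hmnD' hD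
  obtain ⟨u, hu⟩ := hun' α0 hα00
  set α : 𝓞 L := α0 * (u : 𝓞 L) ^ 2 with hα
  have huL : ((u : 𝓞 L) : L) ≠ 0 := coe_ne u.ne_zero
  have hαL : (α : L) = (c : L) * δ * (η * ((u : 𝓞 L) : L)) ^ 2 := by
    have e1 : ((α0 * (u : 𝓞 L) ^ 2 : 𝓞 L) : L) = (α0 : L) * ((u : 𝓞 L) : L) ^ 2 := by
      have e2 : ((α0 * (u : 𝓞 L) ^ 2 : 𝓞 L) : L) = (α0 : L) * (((u : 𝓞 L) ^ 2 : 𝓞 L) : L) :=
        map_mul (algebraMap (𝓞 L) L) _ _
      rw [e2]
      congr 1
    rw [hα, e1, hα0]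
    ring
  have hηu : η * ((u : 𝓞 L) : L) ≠ 0 := mul_ne_zero hη huL
  have hαL0 : (α : L) ≠ 0 := by
    rw [hαL]
    exact mul_ne_zero hcδ (pow_ne_zero 2 hηu)
  have hα000 : α ≠ 0 := by
    rintro h
    rw [h] at hαL0
    exact hαL0 (by simp)
  have hvu : ∀ v : HeightOneSpectrum (𝓞 L), v.valuation L ((u : 𝓞 L) : L) = 1 := by
    intro v
    apply (HeightOneSpectrum.valuation_eq_one_iff_notMem v).mpr
    intro h
    exact v.isPrime.ne_top (Ideal.eq_top_of_isUnit_mem _ h u.isUnit)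
  have hvα : ∀ v : HeightOneSpectrum (𝓞 L), v.valuation L (α : L) = v.valuation L (α0 : L) := by
    intro v
    have e1 : (α : L) = (α0 : L) * ((u : 𝓞 L) : L) ^ 2 := by
      rw [hαL, hα0]
      ring
    rw [e1, map_mul, map_pow, hvu, one_pow, mul_one]
  obtain ⟨d', hd'⟩ := theta_surj hs (α : L)
  obtain ⟨η', hη'⟩ := theta_surj hs (η * ((u : 𝓞 L) : L))
  have hcQ : (c : ℚ) ≠ 0 := by exact_mod_cast hc0
  have hcov' : ∀ (p : ℕ) [Fact p.Prime],
      Cov f d' (((f.leadingCoeff * D : ℤ) : ℚ) * Algebra.norm ℚ (aeval θ d')) ℚ_[p] := by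
    intro p hp
    refine hch f L θ hs hodd D d d' η' (c : ℚ) hcQ (by rw [hη']; exact hηu) ?_ ℚ_[p] (hcov p)
    rw [hd', hη', hαL, Rat.cast_natCast]
  -- the local data of `α`
  have hBcv : ∀ (l : ℕ), l.Prime → ¬ l ∣ B → ∀ v : HeightOneSpectrum (𝓞 L), Abv v l →
      (Bc : 𝓞 L) ∉ v.asIdeal := fun l hl hlB v hv => hBmem l v Bc hl hv (hB1 l hlB).1
  have hv1 : ∀ (l : ℕ), l.Prime → ¬ l ∣ B → ∀ v : HeightOneSpectrum (𝓞 L), Abv v l →
      Par v ((c : L) * δ) 0 → v.valuation L (α : L) = 1 := by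
    intro l hl hlB v hv h
    rw [hvα]
    exact (hval0 v (hBcv l hl hlB v hv)).2 (fun h2 => par_excl h ((hSm v).mp h2).2)
  have hloc : ∀ l : ℕ, l.Prime → ¬ l ∣ B →
      ((∀ v : HeightOneSpectrum (𝓞 L), Abv v l → v.valuation L (α : L) = 1) ∧
        ((l : ℤ) ∣ D → (l : ℤ) ∣ (mn : ℤ))) ∨
      ((l : ℤ) ∣ D ∧ ¬ (l : ℤ) ∣ (mn : ℤ) ∧
        ∃ v0 : HeightOneSpectrum (𝓞 L), Abv v0 l ∧ Ideal.absNorm v0.asIdeal = l ∧
          v0.valuation L (α : L) = WithZero.exp (-1 : ℤ) ∧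
          ∀ v : HeightOneSpectrum (𝓞 L), Abv v l → v ≠ v0 → v.valuation L (α : L) = 1) := by
    intro l hl hlB
    rcases hkey l hl hlB with h4 | ⟨h3, v0, h4, h5, h6, h7⟩
    · left
      refine ⟨fun v hv => hv1 l hl hlB v hv (h4 v hv), fun hlD => ?_⟩
      exact (hmdvd l hl).mpr ((hIm l).mpr ⟨hl, hlD, hlB, h4⟩)
    · right
      refine ⟨h3, ?_, v0, h4, h5, ?_, fun v hv hne => hv1 l hl hlB v hv (h7 v hv hne)⟩
      · intro hlm
        exact par_excl (((hIm l).mp ((hmdvd l hl).mp hlm)).2.2.2 v0 h4) h6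
      · rw [hvα]
        exact (hval0 v0 (hBcv l hl hlB v0 h4)).1 ((hSm v0).mpr ⟨hBcv l hl hlB v0 h4, h6⟩)
  -- the type
  obtain ⟨Nα, hNα⟩ : ∃ Nα : ℤ, Nα = Algebra.norm ℤ α := ⟨_, rfl⟩
  have hNαQ : (Nα : ℚ) = Algebra.norm ℚ (α : L) := by
    rw [hNα, Algebra.coe_norm_int]
  have hNα0 : Nα ≠ 0 := by
    intro h
    rw [h, Int.cast_zero] at hNαQ
    exact (Algebra.norm_ne_zero_iff.mpr hαL0) hNαQ.symm
  have hz0 : D * Nα * mn ≠ 0 := mul_ne_zero (mul_ne_zero hD0 hNα0) (by exact_mod_cast hmn0.ne')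
  have hzev : ∀ l : ℕ, l.Prime → ¬ l ∣ B → Even (padicValInt l (D * Nα * mn)) := by
    intro l hl hlB
    have : Fact l.Prime := ⟨hl⟩
    have hmnZ : (mn : ℤ) ≠ 0 := by exact_mod_cast hmn0.ne'
    rw [padicValInt.mul (mul_ne_zero hD0 hNα0) hmnZ, padicValInt.mul hD0 hNα0]
    have e1 : (padicValInt l Nα : ℤ) = padicValRat l (Algebra.norm ℚ (α : L)) := by
      rw [← hNαQ, padicValRat.of_int]
    have e2 : ∀ z : ℤ, (padicValInt l z : ℤ) = padicValRat l (z : ℚ) := fun z => by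
      rw [padicValRat.of_int]
    rcases hloc l hl hlB with ⟨h1, h2⟩ | ⟨h1, h2, v0, h3, h4, h5, h6⟩
    · have h3 : padicValInt l Nα = 0 := by
        have := norm_zero (l := l) hα000 h1
        rw [← e1] at this
        exact_mod_cast this
      by_cases hlD : (l : ℤ) ∣ D
      · have h4 : padicValInt l D = 1 := by
          have := (valD (l := l) hD).2 hlD
          rw [← e2] at this
          exact_mod_cast this
        have h5 : padicValInt l (mn : ℤ) = 1 := by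
          have := (valD (l := l) hmsq).2 (h2 hlD)
          rw [← e2] at this
          exact_mod_cast this
        rw [h3, h4, h5]
        decide
      · have h4 : padicValInt l D = 0 := padicValInt.eq_zero_of_not_dvd hlD
        have h5 : padicValInt l (mn : ℤ) = 0 :=
          padicValInt.eq_zero_of_not_dvd (fun h => hlD (h.trans hmnD'))
        rw [h3, h4, h5]
        decide
    · have h7 : padicValInt l Nα = 1 := by
        have := norm_one (l := l) hα000 h3 h4 h5 h6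
        rw [← e1] at this
        exact_mod_cast this
      have h8 : padicValInt l D = 1 := by
        have := (valD (l := l) hD).2 h1
        rw [← e2] at this
        exact_mod_cast this
      have h9 : padicValInt l (mn : ℤ) = 0 := padicValInt.eq_zero_of_not_dvd h2
      rw [h7, h8, h9]
      decide
  obtain ⟨κ, s, hκs, hκB⟩ := kap_dvd hz0 hzev
  have hs0 : s ≠ 0 := by
    rintro rfl
    apply hz0
    rw [hκs]
    ring
  refine ⟨α, (c : ℚ), η * ((u : 𝓞 L) : L), κ, mn, hα000, hcQ, hηu, ?_, hκB, ⟨?_, ?_⟩, ?_, ?_, ?_⟩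
  · rw [hαL, Rat.cast_natCast]
  · intro l hl hlB hlD
    refine ⟨fun h => hlD (h.trans hmnD'), ?_⟩
    rcases hloc l hl hlB with ⟨h1, -⟩ | ⟨h1, -⟩
    · exact h1
    · exact absurd h1 hlD
  · intro l hl hlB hlD
    have : Fact l.Prime := ⟨hl⟩
    obtain ⟨hsd1, hsd2⟩ := hsd' t ht l (hB1 l hlB).2.2.1 d' α D hd' hα000 hD hlD (hcov' l)
    rcases hloc l hl hlB with ⟨h1, h2⟩ | ⟨-, h2, v0, h3, h4, h5, h6⟩
    · left
      exact ⟨h2 hlD, h1, hsd1 h1⟩
    · right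
      obtain ⟨r, u', hr, hu'l, hu', hu''⟩ := hsd2 v0 h3 h4 h5 h6
      refine ⟨h2, v0, h3, h4, h5, h6, r, hr, ?_⟩
      have hlκ : ¬ (l : ℤ) ∣ κ := fun h => hlB (by exact_mod_cast h.trans hκB)
      -- `s = l s'`
      have hDN : D * Nα = u' * (l : ℤ) ^ 2 := by
        have : ((D * Nα : ℤ) : ℚ) = ((u' * (l : ℤ) ^ 2 : ℤ) : ℚ) := by
          push_cast
          rw [hNαQ]
          exact hu'
        exact_mod_cast this
      have hprime : Prime (l : ℤ) := Nat.prime_iff_prime_int.mp hl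
      have hls : (l : ℤ) ∣ s := by
        have h7 : (l : ℤ) ∣ κ * s ^ 2 := by
          rw [← hκs, hDN]
          exact Dvd.intro (u' * l * mn) (by ring)
        rcases hprime.dvd_or_dvd h7 with h8 | h8
        · exact absurd h8 hlκ
        · exact hprime.dvd_of_dvd_pow h8
      obtain ⟨s', rfl⟩ := hls
      have hlZ : (l : ℤ) ≠ 0 := by exact_mod_cast hl.ne_zero
      have hks : κ * s' ^ 2 = u' * mn := by
        have h7 : (l : ℤ) ^ 2 * (κ * s' ^ 2) = (l : ℤ) ^ 2 * (u' * mn) := by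
          have h8 := hκs
          rw [hDN] at h8
          linear_combination -h8
        exact mul_left_cancel₀ (pow_ne_zero 2 hlZ) h7
      have hs'l : ¬ (l : ℤ) ∣ s' := by
        intro h7
        have h8 : (l : ℤ) ∣ u' * mn := by
          rw [← hks]
          exact Dvd.dvd.mul_left (Dvd.dvd.pow h7 (by norm_num)) _
        rcases hprime.dvd_or_dvd h8 with h9 | h9
        · exact hu'l h9
        · exact h2 h9
      obtain ⟨s'', hs''⟩ : ∃ s'' : ℤ, (l : ℤ) ∣ s' * s'' - 1 := by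
        have h7 : IsCoprime (l : ℤ) s' :=
          Int.isCoprime_iff_gcd_eq_one.mpr (Int.isCoprime_iff_gcd_eq_one.mp
            (hprime.coprime_iff_not_dvd.mpr hs'l))
        obtain ⟨a', b', hab⟩ := h7
        exact ⟨b', ⟨-a', by linear_combination hab⟩⟩
      intro v hv hne
      obtain ⟨g', hg'⟩ := hu'' v hv hne
      refine ⟨(mn : 𝓞 L) * g' * s'', ?_⟩
      have h7 : ((s' * s'' - 1 : ℤ) : 𝓞 L) ∈ v.asIdeal := (int_mem_iff hl hv _).mpr hs''
      have hks' : (κ : 𝓞 L) * (s' : 𝓞 L) ^ 2 = (u' : 𝓞 L) * (mn : 𝓞 L) := by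
        exact_mod_cast congrArg (Int.cast : ℤ → 𝓞 L) hks
      have e1 : ((κ * (mn : ℤ) : ℤ) : 𝓞 L) * α - ((r : 𝓞 L) - t) * ((mn : 𝓞 L) * g' * s'') ^ 2 =
          -((κ : 𝓞 L) * mn * α * ((s' : 𝓞 L) * s'' + 1)) * ((s' * s'' - 1 : ℤ) : 𝓞 L) +
          (s'' : 𝓞 L) ^ 2 * (mn : 𝓞 L) ^ 2 * ((u' : 𝓞 L) * α - ((r : 𝓞 L) - t) * g' ^ 2) := by
        push_cast
        linear_combination ((mn : 𝓞 L) * α * (s'' : 𝓞 L) ^ 2) * hks'
      rw [e1]
      exact Ideal.add_mem _ (Ideal.mul_mem_left _ _ h7) (Ideal.mul_mem_left _ _ hg')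
  · exact_mod_cast hmn0
  · have h1 : mn ≤ D.natAbs := Nat.le_of_dvd (Nat.pos_of_ne_zero (Int.natAbs_ne_zero.mpr hD0)) hmnD
    have h2 : ((mn : ℕ) : ℝ) ≤ ((D.natAbs : ℕ) : ℝ) := Nat.cast_le.mpr h1
    rw [Int.cast_natCast]
    exact h2
  · intro σ
    have hmnR : (0 : ℝ) < mn := by exact_mod_cast hmn0
    have hN : ((Ideal.absNorm (Ideal.span {α0}) : ℕ) : ℝ) ≤
        (Cc * W0) * ((D.natAbs : ℝ) / mn) := by
      refine hnorm0.trans ?_
      have h1 : (∏ v ∈ S, ((Ideal.absNorm v.asIdeal : ℕ) : ℝ)) * mn ≤ (W0 : ℝ) * (D.natAbs : ℝ) := by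
        exact_mod_cast hprodS1
      have h2 : (∏ v ∈ S, ((Ideal.absNorm v.asIdeal : ℕ) : ℝ)) ≤
          (W0 : ℝ) * (D.natAbs : ℝ) / mn := by
        rw [le_div_iff₀ hmnR]
        exact h1
      calc Cc * ∏ v ∈ S, ((Ideal.absNorm v.asIdeal : ℕ) : ℝ) ≤
            Cc * ((W0 : ℝ) * (D.natAbs : ℝ) / mn) :=
            mul_le_mul_of_nonneg_left h2 hCc.le
        _ = _ := by ring
    have h2 := hu σ
    rw [hn] at h2 ⊢
    refine h2.trans ?_
    have hexp : (0 : ℝ) ≤ (1 : ℝ) / f.natDegree := by positivity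
    calc Cu * ((Ideal.absNorm (Ideal.span {α0}) : ℕ) : ℝ) ^ ((1 : ℝ) / f.natDegree)
        ≤ Cu * ((Cc * W0) * ((D.natAbs : ℝ) / mn)) ^ ((1 : ℝ) / f.natDegree) :=
          mul_le_mul_of_nonneg_left (Real.rpow_le_rpow (by positivity) hN hexp) hCu.le
      _ = _ := by
          rw [Real.mul_rpow (by positivity) (by positivity)]
          push_cast
          ring

end Pool.Agent.Q151.OS
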