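import Pool.Agent.Q239.EL.DESC
import Pool.Agent.Q161.OS.Stm

set_option autoImplicit false
set_option linter.unusedSectionVars false

/-! Job SC2 of project OS: parities of the valuations at the primes above `l`. -/

open Polynomial NumberField IsDedekindDomain
open Pool.Agent.Q51.EL Pool.Agent.Q239.EL Pool.Agent.Q161.OS

noncomputable section

namespace Pool.Agent.Q151.OS

/-- the valuation of a rational number close to `l ^ e * w`, `l ∤ w` -/
lemma val_q {l : ℕ} [hl : Fact l.Prime] {e : ℕ} {w : ℤ} {y : ℚ} (he : e < 2) (hw : ¬ (l : ℤ) ∣ w)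
    (h : padicNorm l ((l : ℚ) ^ e * w - y) ≤ (l : ℚ) ^ (-((2 : ℕ) : ℤ))) :
    y ≠ 0 ∧ padicValRat l y = e := by
  have hl1 : (1 : ℚ) < l := by exact_mod_cast hl.out.one_lt
  have hl0 : (l : ℚ) ≠ 0 := by exact_mod_cast hl.out.ne_zero
  have hw0 : w ≠ 0 := by
    rintro rfl
    exact hw (dvd_zero _)
  have hwQ : (w : ℚ) ≠ 0 := by exact_mod_cast hw0
  have hx0 : (l : ℚ) ^ e * w ≠ 0 := mul_ne_zero (pow_ne_zero _ hl0) hwQ
  have hvx : padicValRat l ((l : ℚ) ^ e * w) = e := by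
    rw [padicValRat.mul (pow_ne_zero _ hl0) hwQ, padicValRat.pow, padicValRat.self hl.out.one_lt,
      padicValRat.of_int, padicValInt.eq_zero_of_not_dvd hw]
    simp
  have hnx : padicNorm l ((l : ℚ) ^ e * w) = (l : ℚ) ^ (-(e : ℤ)) := by
    rw [padicNorm.eq_zpow_of_nonzero hx0, hvx]
  have hlt : (l : ℚ) ^ (-((2 : ℕ) : ℤ)) < (l : ℚ) ^ (-(e : ℤ)) := by
    apply zpow_lt_zpow_right₀ hl1
    push_cast
    omega
  have hny : padicNorm l y = (l : ℚ) ^ (-(e : ℤ)) := by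
    have e1 : y = (l : ℚ) ^ e * w + -((l : ℚ) ^ e * w - y) := by ring
    have hne : padicNorm l ((l : ℚ) ^ e * w) ≠ padicNorm l (-((l : ℚ) ^ e * w - y)) := by
      rw [padicNorm.neg, hnx]
      exact (lt_of_le_of_lt h hlt).ne'
    have h2 := padicNorm.add_eq_max_of_ne hne
    rw [← e1, padicNorm.neg, hnx, max_eq_left (h.trans hlt.le)] at h2
    exact h2
  have hy0 : y ≠ 0 := by
    rintro rfl
    rw [padicNorm.zero] at hny
    exact (zpow_pos (by linarith : (0 : ℚ) < l) _).ne hny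
  refine ⟨hy0, ?_⟩
  rw [padicNorm.eq_zpow_of_nonzero hy0] at hny
  have h3 := zpow_right_injective₀ (by linarith : (0 : ℚ) < l) hl1.ne' hny
  omega

/-- valuation of `κ` modulo 2 -/
lemma par_kap {l : ℕ} [hl : Fact l.Prime] {a D : ℤ} {N q : ℚ} {e : ℕ} {w : ℤ} (he : e < 2)
    (hw : ¬ (l : ℤ) ∣ w) (ha : ¬ (l : ℤ) ∣ a)
    (h : padicNorm l ((l : ℚ) ^ e * w - (((a * D : ℤ) : ℚ) * N) * q ^ 2) ≤
      (l : ℚ) ^ (-((2 : ℕ) : ℤ))) :
    Even ((e : ℤ) + padicValRat l (D : ℚ) + padicValRat l N) ∧ q ≠ 0 ∧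
      (e : ℤ) = padicValRat l (D : ℚ) + padicValRat l N + 2 * padicValRat l q := by
  obtain ⟨hy, hv⟩ := val_q he hw h
  have h1 : ((a * D : ℤ) : ℚ) * N ≠ 0 := left_ne_zero_of_mul hy
  have h2 : q ^ 2 ≠ 0 := right_ne_zero_of_mul hy
  have hq : q ≠ 0 := by
    rintro rfl
    exact h2 (by ring)
  have h3 : ((a * D : ℤ) : ℚ) ≠ 0 := left_ne_zero_of_mul h1
  have hN : N ≠ 0 := right_ne_zero_of_mul h1
  push_cast at h3
  have haQ : (a : ℚ) ≠ 0 := left_ne_zero_of_mul h3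
  have hDQ : (D : ℚ) ≠ 0 := right_ne_zero_of_mul h3
  have hva : padicValRat l (a : ℚ) = 0 := by
    rw [padicValRat.of_int]
    exact_mod_cast padicValInt.eq_zero_of_not_dvd ha
  push_cast at hv
  rw [padicValRat.mul (mul_ne_zero h3 hN) h2, padicValRat.mul h3 hN, padicValRat.mul haQ hDQ, hva,
    padicValRat.pow, zero_add] at hv
  push_cast at hv
  refine ⟨⟨padicValRat l (D : ℚ) + padicValRat l N + padicValRat l q, by linarith⟩, hq,
    by linarith⟩

/-- the valuation of a squarefree integer -/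
lemma valD {l : ℕ} [hl : Fact l.Prime] {D : ℤ} (hD : Squarefree D) :
    (¬ (l : ℤ) ∣ D → padicValRat l (D : ℚ) = 0) ∧ ((l : ℤ) ∣ D → padicValRat l (D : ℚ) = 1) := by
  have hD0 : D ≠ 0 := hD.ne_zero
  constructor
  · intro h
    rw [padicValRat.of_int]
    exact_mod_cast padicValInt.eq_zero_of_not_dvd h
  · rintro ⟨z, rfl⟩
    have hz0 : z ≠ 0 := right_ne_zero_of_mul hD0
    have hzl : ¬ (l : ℤ) ∣ z := by
      intro h
      have h1 := hD l (mul_dvd_mul_left _ h)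
      exact (Nat.prime_iff_prime_int.mp hl.out).not_isUnit h1
    push_cast
    rw [padicValRat.mul (by exact_mod_cast hl.out.ne_zero) (by exact_mod_cast hz0)]
    have h1 : padicValRat l (l : ℚ) = 1 := padicValRat.self hl.out.one_lt
    have h2 : padicValRat l (z : ℚ) = 0 := by
      rw [padicValRat.of_int]
      exact_mod_cast padicValInt.eq_zero_of_not_dvd hzl
    rw [h1, h2, add_zero]

theorem sc2 (hap : S_AP2) (hroot : S_ROOT) (hnv : S_NV2) (hram : S_RAM) : S_SC2 := by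
  intro f L _ _ θ hs hodd
  obtain ⟨B0, hB0, hB0a, hB0'⟩ := hroot f L θ hs
  obtain ⟨⟨B1, hB1, hB1'⟩, -⟩ := hram L
  refine ⟨B0 * B1, mul_ne_zero hB0 hB1, ?_⟩
  intro l hl hlB d D hd hD hcov
  have hl0 : ¬ l ∣ B0 := fun h => hlB (Dvd.dvd.mul_right h _)
  have hl1 : ¬ l ∣ B1 := fun h => hlB (Dvd.dvd.mul_left h _)
  obtain ⟨hθ, hxw⟩ := hB0' l hl.out hl0
  have hsqf := hB1' l hl.out hl1
  have ha : ¬ (l : ℤ) ∣ f.leadingCoeff := fun h => hl0 (by exact_mod_cast h.trans hB0a)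
  obtain ⟨x, w, e, g, q, he, hxw1, hval, hq⟩ := hap f L θ hs l ha d _ hcov 2
  have hnv' := hnv L l hl.out hsqf (aeval θ d) hd
  have hun : ∀ v : HeightOneSpectrum (𝓞 L), Abv v l → v.valuation L ((x : L) - w * θ) = 1 →
      Par v (aeval θ d) e := by
    intro v hv h1
    exact par_of_val hd (at_unit he (hθ v hv).2 h1 (hval v hv))
  rcases hxw x w hxw1 with h1 | ⟨v0, hv0, hN0, hw, hlt, hoth⟩
  · exact ⟨e, Or.inl fun v hv => hun v hv (h1 v hv)⟩
  · obtain ⟨e0, he0⟩ := val_exp (v := v0) hd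
    have hp0 : Par v0 (aeval θ d) e0 := ⟨0, by rw [he0]; congr 1; ring⟩
    have h2 := hnv'.2 e0 e v0 hv0 hN0 hp0 (fun v hv hne => hun v hv (hoth v hv hne))
    obtain ⟨hk, -, -⟩ := par_kap he hw ha hq
    obtain ⟨n, hn⟩ := hodd
    rw [hs.deg, hn] at h2
    obtain ⟨a, ha'⟩ := hk
    obtain ⟨b, hb'⟩ := h2
    have e3 : (((2 * n + 1 : ℕ) : ℤ) - 1) * (e : ℤ) = 2 * (n * e) := by push_cast; ring
    rw [e3] at hb'
    by_cases hlD : (l : ℤ) ∣ D
    · refine ⟨e, Or.inr ⟨hlD, v0, hv0, hN0, ?_, fun v hv hne => hun v hv (hoth v hv hne)⟩⟩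
      rw [(valD hD).2 hlD] at ha'
      apply par_congr hp0
      exact ⟨b - a - n * e, by linarith⟩
    · refine ⟨e, Or.inl (fun v hv => ?_)⟩
      by_cases hne : v = v0
      · subst hne
        rw [(valD hD).1 hlD] at ha'
        apply par_congr hp0
        exact ⟨b - a - n * e, by linarith⟩
      · exact hun v hv (hoth v hv hne)

end Pool.Agent.Q151.OS
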