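import Pool.Agent.Q151.OS.SC2

set_option autoImplicit false
set_option linter.unusedSectionVars false

/-! Job SD2 of project OS: the classes at the primes dividing `D`. -/

open Polynomial NumberField IsDedekindDomain
open Pool.Agent.Q51.EL Pool.Agent.Q239.EL Pool.Agent.Q161.OS

noncomputable section

namespace Pool.Agent.Q151.OS

section

variable {L : Type} [Field L] [NumberField L] {l : ℕ} [hl : Fact l.Prime]
  {v : HeightOneSpectrum (𝓞 L)}

/-- replacing a locally integral element by an integral one in a congruence -/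
lemma int_sq {y s h : L} (hs : v.valuation L s ≤ 1) (hh : v.valuation L h ≤ 1)
    (hy : v.valuation L (y - s * h ^ 2) < 1) :
    ∃ g : 𝓞 L, v.valuation L (y - s * (g : L) ^ 2) < 1 := by
  obtain ⟨g', hg'⟩ := HeightOneSpectrum.exists_valuation_sub_lt_of_integer v hh 1
  rw [Units.val_one] at hg'
  have hg'' : v.valuation L ((g' : L) - h) < 1 := hg'
  refine ⟨g', ?_⟩
  have hg'le : v.valuation L (g' : L) ≤ 1 := HeightOneSpectrum.valuation_le_one v g'
  have e1 : y - s * (g' : L) ^ 2 = (y - s * h ^ 2) + -(((g' : L) - h) * (s * ((g' : L) + h))) := by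
    ring
  rw [e1]
  refine lt_of_le_of_lt (Valuation.map_add _ _ _) (max_lt hy ?_)
  rw [Valuation.map_neg, map_mul]
  refine mul_lt_one_of_lt_of_le hg'' ?_
  rw [map_mul]
  exact mul_le_one' hs ((Valuation.map_add _ _ _).trans (max_le hg'le hh))

lemma pn_eq (q : ℚ) : ‖(q : ℚ_[l])‖ = ((padicNorm l q : ℚ) : ℝ) := Padic.eq_padicNorm q

lemma val_rat_le (hv : Abv v l) {q : ℚ} (h : padicNorm l q ≤ 1) :
    v.valuation L (algebraMap ℚ L q) ≤ 1 := by
  apply val_rat_le_one hv
  rw [pn_eq]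
  exact_mod_cast h

lemma val_rat_lt (hv : Abv v l) {q : ℚ} (h : padicNorm l q ≤ (l : ℚ) ^ (-((2 : ℕ) : ℤ))) :
    v.valuation L (algebraMap ℚ L q) < 1 := by
  have hl1 : (1 : ℚ) < l := by exact_mod_cast hl.out.one_lt
  have hl0 : (l : ℚ) ≠ 0 := by exact_mod_cast hl.out.ne_zero
  have h1 : padicNorm l (q / l) ≤ 1 := by
    rw [padicNorm.div, padicNorm.padicNorm_p_of_prime, div_inv_eq_mul]
    calc padicNorm l q * l ≤ (l : ℚ) ^ (-((2 : ℕ) : ℤ)) * l :=
          mul_le_mul_of_nonneg_right h (by linarith)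
      _ = (l : ℚ) ^ (-1 : ℤ) := by
          nth_rewrite 2 [← zpow_one (l : ℚ)]
          rw [← zpow_add₀ hl0]
          norm_num
      _ ≤ 1 := by
          rw [zpow_neg, zpow_one]
          exact inv_le_one_of_one_le₀ hl1.le
  have h2 := val_rat_le hv h1
  have e1 : algebraMap ℚ L q = (l : L) * algebraMap ℚ L (q / l) := by
    rw [map_div₀, map_natCast, mul_div_cancel₀]
    exact_mod_cast hl.out.ne_zero
  rw [e1, map_mul]
  refine mul_lt_one_of_lt_of_le ?_ h2
  refine lt_of_le_of_lt (val_l_le hv) ?_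
  rw [← WithZero.exp_zero, WithZero.exp_lt_exp]
  norm_num

/-- an integer of valuation one -/
lemma split_one {z : ℤ} (h : padicValRat l (z : ℚ) = 1) : ∃ z' : ℤ, z = l * z' ∧ ¬ (l : ℤ) ∣ z' := by
  have hz : z ≠ 0 := by
    rintro rfl
    simp at h
  rw [padicValRat.of_int] at h
  have h1 : padicValInt l z = 1 := by exact_mod_cast h
  have h2 : (l : ℤ) ^ 1 ∣ z := (padicValInt_dvd_iff 1 z).mpr (Or.inr h1.ge)
  rw [pow_one] at h2
  obtain ⟨z', rfl⟩ := h2
  refine ⟨z', rfl, ?_⟩
  rintro ⟨z'', rfl⟩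
  have h3 : (l : ℤ) ^ 2 ∣ (l : ℤ) * (l * z'') := ⟨z'', by ring⟩
  rcases (padicValInt_dvd_iff 2 _).mp h3 with h4 | h4
  · exact hz h4
  · omega

/-- the norm of an integral element in exactly one prime above `l`, of norm `l`, once -/
lemma norm_one {α : 𝓞 L} (hα : α ≠ 0) {v0 : HeightOneSpectrum (𝓞 L)} (hv0 : Abv v0 l)
    (hN0 : Ideal.absNorm v0.asIdeal = l) (h0 : v0.valuation L (α : L) = WithZero.exp (-1 : ℤ))
    (h1 : ∀ v : HeightOneSpectrum (𝓞 L), Abv v l → v ≠ v0 → v.valuation L (α : L) = 1) :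
    padicValRat l (Algebra.norm ℚ (α : L)) = 1 := by
  rw [norm_int_val, ph_formula (l := l) (Ideal.span {α}) (span_ne hα)]
  have hmem : v0 ∈ (ab_finite (L := L) hl.out.ne_zero).toFinset :=
    (ab_finite (L := L) hl.out.ne_zero).mem_toFinset.mpr hv0
  rw [Finset.sum_eq_single_of_mem v0 hmem]
  · rw [ph_of_norm hN0]
    have h2 := val_int v0 hα
    rw [h0, WithZero.exp_inj] at h2
    have h3 : mu v0 (Ideal.span {α}) = 1 := by omega
    rw [h3]
    norm_num
  · intro v hv hne
    have hv' := (ab_finite (L := L) hl.out.ne_zero).mem_toFinset.mp hv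
    have h2 := val_int v hα
    rw [h1 v hv' hne, ← WithZero.exp_zero, WithZero.exp_inj] at h2
    have h3 : mu v (Ideal.span {α}) = 0 := by omega
    rw [h3, zero_mul]

end

theorem sd2 (hap : S_AP2) (hroot : S_ROOT) (hnv : S_NV2) (hram : S_RAM) : S_SD2 := by
  intro f L _ _ θ hs hodd hn3
  obtain ⟨B0, hB0, hB0a, hB0'⟩ := hroot f L θ hs
  obtain ⟨⟨B1, hB1, hB1'⟩, -⟩ := hram L
  refine ⟨B0 * B1, mul_ne_zero hB0 hB1, ?_⟩
  intro t ht l hl hlB d α D hd hα00 hD hlD hcov
  have hl0 : ¬ l ∣ B0 := fun h => hlB (Dvd.dvd.mul_right h _)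
  have hl1 : ¬ l ∣ B1 := fun h => hlB (Dvd.dvd.mul_left h _)
  obtain ⟨hθ, hxw⟩ := hB0' l hl.out hl0
  have hsqf := hB1' l hl.out hl1
  have ha : ¬ (l : ℤ) ∣ f.leadingCoeff := fun h => hl0 (by exact_mod_cast h.trans hB0a)
  obtain ⟨x, w, e, g, q, he, hxw1, hval, hq⟩ := hap f L θ hs l ha d _ hcov 2
  rw [hd] at hval hq
  have hn3' : 3 ≤ Module.finrank ℚ L := by rw [hs.deg]; exact hn3
  have hαL : (α : L) ≠ 0 := coe_ne hα00
  have hun : ∀ v : HeightOneSpectrum (𝓞 L), Abv v l → v.valuation L ((x : L) - w * θ) = 1 →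
      v.valuation L ((α : L) * g ^ 2) = WithZero.exp (-(e : ℤ)) := fun v hv h1 =>
    at_unit he (hθ v hv).2 h1 (hval v hv)
  have hg0 : ∀ v : HeightOneSpectrum (𝓞 L), Abv v l → v.valuation L ((x : L) - w * θ) = 1 →
      g ≠ 0 := by
    intro v hv h1
    rintro rfl
    have h2 := hun v hv h1
    rw [zero_pow (by norm_num), mul_zero, map_zero] at h2
    exact WithZero.exp_ne_zero h2.symm
  have hoff : ∀ v : HeightOneSpectrum (𝓞 L), Abv v l → v.valuation L (α : L) = 1 →
      v.valuation L ((x : L) - w * θ) = 1 → e = 0 ∧ v.valuation L g = 1 := by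
    intro v hv hα h1
    have h2 := hun v hv h1
    obtain ⟨m, hm⟩ := val_exp (v := v) (hg0 v hv h1)
    rw [map_mul, hα, one_mul, map_pow, hm, ← WithZero.exp_nsmul, WithZero.exp_inj] at h2
    simp at h2
    have hm0 : m = 0 := by omega
    refine ⟨by omega, ?_⟩
    rw [hm, hm0]
    rfl
  have hmem : ∀ {v : HeightOneSpectrum (𝓞 L)} {y : 𝓞 L}, v.valuation L (y : L) < 1 →
      y ∈ v.asIdeal := fun h => (HeightOneSpectrum.valuation_lt_one_iff_mem _ _).mp h
  have hcoe : ∀ y z : 𝓞 L, ((y - z : 𝓞 L) : L) = (y : L) - (z : L) := fun y z =>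
    map_sub (algebraMap (𝓞 L) L) y z
  have hcoem : ∀ y z : 𝓞 L, ((y * z : 𝓞 L) : L) = (y : L) * (z : L) := fun y z =>
    map_mul (algebraMap (𝓞 L) L) y z
  have hcoep : ∀ y : 𝓞 L, ((y ^ 2 : 𝓞 L) : L) = (y : L) ^ 2 := fun y =>
    map_pow (algebraMap (𝓞 L) L) y 2
  have hexp2 : (WithZero.exp (-((2 : ℕ) : ℤ)) : WithZero (Multiplicative ℤ)) < 1 := by
    rw [← WithZero.exp_zero, WithZero.exp_lt_exp]
    norm_num
  constructor
  · intro hα1
    have h2 := (hnv L l hl.out hsqf (α : L) hαL).1 0 (fun v hv => ⟨0, by rw [hα1 v hv]; simp⟩)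
    rw [mul_zero, add_zero] at h2
    have hw : (l : ℤ) ∣ w := by
      by_contra hw
      obtain ⟨hk, -, -⟩ := par_kap he hw ha hq
      rw [(valD hD).2 hlD] at hk
      have he0 : e = 0 := by
        rcases hxw x w hxw1 with h1 | ⟨v0, hv0, hN0, -, -, hoth⟩
        · obtain ⟨v, hv⟩ := exists_above (L := L) hsqf
          exact (hoff v hv (hα1 v hv) (h1 v hv)).1
        · obtain ⟨v, hv, hne, -⟩ := third hsqf hn3' v0 v0 (ph_of_norm (l := l) hN0)
            (ph_of_norm (l := l) hN0)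
          exact (hoff v hv (hα1 v hv) (hoth v hv hne)).1
      rw [he0] at hk
      obtain ⟨a', ha'⟩ := hk
      obtain ⟨b', hb'⟩ := h2
      push_cast at ha'
      omega
    have hx : ¬ (l : ℤ) ∣ x := by
      rcases hxw1 with h | h
      · exact h
      · exact absurd hw h
    refine ⟨x, hx, fun v hv => ?_⟩
    rcases hxw x w hxw1 with h1 | ⟨v0, -, -, hw', -⟩
    swap
    · exact absurd hw hw'
    obtain ⟨he0, hgv⟩ := hoff v hv (hα1 v hv) (h1 v hv)
    have hρ := hval v hv
    rw [he0, pow_zero, one_mul] at hρ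
    have hρ1 : v.valuation L ((x : L) - w * θ - (α : L) * g ^ 2) < 1 := lt_of_le_of_lt hρ hexp2
    have hy : v.valuation L ((x : L) * (α : L) - 1 * ((α : L) * g) ^ 2) < 1 := by
      have e1 : (x : L) * (α : L) - 1 * ((α : L) * g) ^ 2 =
          (α : L) * (((x : L) - w * θ - (α : L) * g ^ 2) + (w : L) * θ) := by ring
      rw [e1, map_mul, hα1 v hv, one_mul]
      refine lt_of_le_of_lt (Valuation.map_add _ _ _) (max_lt hρ1 ?_)
      rw [map_mul]
      exact mul_lt_one_of_lt_of_le (val_int_lt hv hw) (hθ v hv).1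
    have hh : v.valuation L ((α : L) * g) ≤ 1 := by
      rw [map_mul, hα1 v hv, hgv, one_mul]
    obtain ⟨g', hg'⟩ := int_sq (v := v) (by rw [map_one]) hh hy
    refine ⟨g', hmem ?_⟩
    rw [hcoe, hcoem, hcoep, int_coe]
    rwa [one_mul] at hg'
  · intro v0 hv0 hN0 hα0 hα
    have hlt0 : v0.valuation L ((x : L) - w * θ) ≠ 1 := by
      intro h1
      have h2 := hun v0 hv0 h1
      obtain ⟨m, hm⟩ := val_exp (v := v0) (hg0 v0 hv0 h1)
      rw [map_mul, hα0, map_pow, hm, ← WithZero.exp_nsmul, ← WithZero.exp_add,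
        WithZero.exp_inj] at h2
      simp at h2
      have he1 : e = 1 := by omega
      have hph0 := ph_of_norm (l := l) hN0
      rcases hxw x w hxw1 with h3 | ⟨v1, hv1, hN1, -, hlt1, hoth⟩
      · obtain ⟨v, hv, hne, -⟩ := third hsqf hn3' v0 v0 hph0 hph0
        have := (hoff v hv (hα v hv hne) (h3 v hv)).1
        omega
      · obtain ⟨v, hv, hne, hne1⟩ := third hsqf hn3' v0 v1 hph0 (ph_of_norm (l := l) hN1)
        have := (hoff v hv (hα v hv hne) (hoth v hv hne1)).1
        omega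
    rcases hxw x w hxw1 with h3 | ⟨v1, hv1, hN1, hw, hlt1, hoth⟩
    · exact absurd (h3 v0 hv0) hlt0
    have hv01 : v1 = v0 := by
      by_contra hne
      exact hlt0 (hoth v0 hv0 (fun h => hne h.symm))
    subst hv01
    have he0 : e = 0 := by
      obtain ⟨v, hv, hne, -⟩ := third hsqf hn3' v1 v1 (ph_of_norm (l := l) hN0)
        (ph_of_norm (l := l) hN0)
      exact (hoff v hv (hα v hv hne) (hoth v hv hne)).1
    obtain ⟨r, hr⟩ : ∃ r : ℤ, (l : ℤ) ∣ w * r - f.leadingCoeff * x := by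
      have h3 : IsCoprime (l : ℤ) w :=
        Int.isCoprime_iff_gcd_eq_one.mpr (Int.isCoprime_iff_gcd_eq_one.mp
          ((Nat.prime_iff_prime_int.mp hl.out).coprime_iff_not_dvd.mpr hw))
      obtain ⟨a', b', hab⟩ := h3
      refine ⟨b' * (f.leadingCoeff * x), ⟨-a' * (f.leadingCoeff * x), ?_⟩⟩
      linear_combination (f.leadingCoeff * x) * hab
    -- the integer `u`
    have hvN := norm_one (l := l) hα00 hv1 hN0 hα0 hα
    rw [← Algebra.coe_norm_int] at hvN
    obtain ⟨N', hN', hN'l⟩ := split_one hvN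
    obtain ⟨D', hD', hD'l⟩ := split_one ((valD (l := l) hD).2 hlD)
    have hul : ¬ (l : ℤ) ∣ D' * N' := by
      intro h
      rcases (Nat.prime_iff_prime_int.mp hl.out).dvd_or_dvd h with h4 | h4
      · exact hD'l h4
      · exact hN'l h4
    have hu : (D : ℚ) * Algebra.norm ℚ (α : L) = ((D' * N' : ℤ) : ℚ) * (l : ℚ) ^ 2 := by
      rw [← Algebra.coe_norm_int, hN', hD']
      push_cast
      ring
    refine ⟨r, D' * N', ?_, hul, hu, ?_⟩
    · apply hmem
      rw [hcoe, ht, int_coe]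
      have h1 : v1.valuation L ((w : L) * ((f.leadingCoeff : L) * θ - r)) < 1 := by
        have e1 : (w : L) * ((f.leadingCoeff : L) * θ - r) =
            -((f.leadingCoeff : L) * ((x : L) - w * θ) +
              ((w * r - f.leadingCoeff * x : ℤ) : L)) := by
          push_cast; ring
        rw [e1, Valuation.map_neg]
        refine lt_of_le_of_lt (Valuation.map_add _ _ _) (max_lt ?_ (val_int_lt hv1 hr))
        rw [map_mul, mul_comm]
        exact mul_lt_one_of_lt_of_le hlt1 (val_int_le _)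
      rw [map_mul, val_int_eq hv1 hw, one_mul] at h1
      exact h1
    · intro v hv hne
      have hxv := hoth v hv hne
      obtain ⟨-, hgv⟩ := hoff v hv (hα v hv hne) hxv
      have hρ := hval v hv
      rw [he0, pow_zero, one_mul] at hρ
      have hρ1 : v.valuation L ((x : L) - w * θ - (α : L) * g ^ 2) < 1 := lt_of_le_of_lt hρ hexp2
      have hgne := hg0 v hv hxv
      obtain ⟨-, hq0, hqv⟩ := par_kap he hw ha hq
      rw [he0, (valD hD).2 hlD, ← Algebra.coe_norm_int, hvN] at hqv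
      have hqv' : padicValRat l q = -1 := by push_cast at hqv; omega
      have hlQ : (l : ℚ) ≠ 0 := by exact_mod_cast hl.out.ne_zero
      have hlq0 : (l : ℚ) * q ≠ 0 := mul_ne_zero hlQ hq0
      have hlqv : padicNorm l ((l : ℚ) * q) ≤ 1 := by
        rw [padicNorm.eq_zpow_of_nonzero hlq0, padicValRat.mul hlQ hq0,
          padicValRat.self hl.out.one_lt, hqv']
        norm_num
      obtain ⟨Q, hQ⟩ : ∃ Q : L, Q = algebraMap ℚ L ((l : ℚ) * q) := ⟨_, rfl⟩
      have hQ1 : v.valuation L Q ≤ 1 := by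
        rw [hQ]
        exact val_rat_le hv hlqv
      have hBq : v.valuation L ((w : L) - (f.leadingCoeff : L) * ((D' * N' : ℤ) : L) * Q ^ 2) < 1 := by
        have h3 := val_rat_lt (L := L) hv hq
        have e1 : algebraMap ℚ L ((l : ℚ) ^ e * w -
            (((f.leadingCoeff * D : ℤ) : ℚ) * Algebra.norm ℚ (α : L)) * q ^ 2) =
            (w : L) - (f.leadingCoeff : L) * ((D' * N' : ℤ) : L) * Q ^ 2 := by
          have e2 : (l : ℚ) ^ e * w -
            (((f.leadingCoeff * D : ℤ) : ℚ) * Algebra.norm ℚ (α : L)) * q ^ 2 =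
              (w : ℚ) - (f.leadingCoeff : ℚ) * ((D' * N' : ℤ) : ℚ) * ((l : ℚ) * q) ^ 2 := by
            rw [he0, pow_zero, one_mul, Int.cast_mul f.leadingCoeff D, mul_assoc (f.leadingCoeff : ℚ),
              hu]
            ring
          rw [e2, hQ]
          simp
        rw [e1] at h3
        exact h3
      have hau : v.valuation L (f.leadingCoeff : L) = 1 := val_int_eq hv ha
      have huv : v.valuation L ((D' * N' : ℤ) : L) ≤ 1 := val_int_le _
      have htv : v.valuation L ((r : L) - (f.leadingCoeff : L) * θ) ≤ 1 := by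
        refine (Valuation.map_sub _ _ _).trans (max_le (val_int_le r) ?_)
        rw [map_mul, hau, one_mul]
        exact (hθ v hv).1
      have hh : v.valuation L (((D' * N' : ℤ) : L) * Q / g) ≤ 1 := by
        rw [map_div₀, hgv, div_one, map_mul]
        exact mul_le_one' huv hQ1
      have hy : v.valuation L (((D' * N' : ℤ) : L) * (α : L) -
          ((r : L) - (f.leadingCoeff : L) * θ) * (((D' * N' : ℤ) : L) * Q / g) ^ 2) < 1 := by
        have e1 : (f.leadingCoeff : L) * g ^ 2 * (((D' * N' : ℤ) : L) * (α : L) -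
            ((r : L) - (f.leadingCoeff : L) * θ) * (((D' * N' : ℤ) : L) * Q / g) ^ 2) =
            ((D' * N' : ℤ) : L) * (-((f.leadingCoeff : L) * ((x : L) - w * θ - (α : L) * g ^ 2)) +
              (-((w * r - f.leadingCoeff * x : ℤ) : L) +
              ((r : L) - (f.leadingCoeff : L) * θ) *
                ((w : L) - (f.leadingCoeff : L) * ((D' * N' : ℤ) : L) * Q ^ 2))) := by
          push_cast
          field_simp
          ring
        have e2 : v.valuation L ((f.leadingCoeff : L) * g ^ 2 * (((D' * N' : ℤ) : L) * (α : L) -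
            ((r : L) - (f.leadingCoeff : L) * θ) * (((D' * N' : ℤ) : L) * Q / g) ^ 2)) =
            v.valuation L (((D' * N' : ℤ) : L) * (α : L) -
            ((r : L) - (f.leadingCoeff : L) * θ) * (((D' * N' : ℤ) : L) * Q / g) ^ 2) := by
          rw [map_mul, map_mul, map_pow, hau, hgv, one_pow, one_mul, one_mul]
        rw [← e2, e1, map_mul, mul_comm]
        refine mul_lt_one_of_lt_of_le ?_ huv
        refine lt_of_le_of_lt (Valuation.map_add _ _ _) (max_lt ?_ ?_)
        · rw [Valuation.map_neg, map_mul, hau, one_mul]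
          exact hρ1
        · refine lt_of_le_of_lt (Valuation.map_add _ _ _) (max_lt ?_ ?_)
          · rw [Valuation.map_neg]
            exact val_int_lt hv hr
          · rw [map_mul, mul_comm]
            exact mul_lt_one_of_lt_of_le hBq htv
      obtain ⟨g', hg'⟩ := int_sq (v := v) htv hh hy
      refine ⟨g', hmem ?_⟩
      rw [hcoe, hcoem, hcoem, hcoe, hcoep, ht, int_coe, int_coe]
      exact hg'

end Pool.Agent.Q151.OS
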